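import Pool.Agent.helper27.CHS.Spec

/-!
# Project chs (MP_5628fe_nt), module CM: the combined weights (adapted from helper78/SY/CMB.lean)
-/

set_option autoImplicit false

namespace Pool.Agent.CHS

open Finset Pool.Agent.SX

theorem CM_s1 (Γ P : Finset ℕ) (f : Finset ℕ → ℝ) :
    ∑ F ∈ Γ.powerset, (if F ⊆ P then f F else 0) = ∑ E ∈ (Γ ∩ P).powerset, f E := by
  rw [← Finset.sum_filter]
  refine Finset.sum_congr ?_ fun _ _ => rfl
  ext F
  simp only [Finset.mem_filter, Finset.mem_powerset, Finset.subset_inter_iff]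

theorem CM_s2 (Γ P : Finset ℕ) (p : ℕ) (hp : p ∉ P) (f : Finset ℕ → ℝ) :
    ∑ F ∈ Γ.powerset, (if F \ P = {p} then f F else 0) =
      if p ∈ Γ then ∑ E ∈ (Γ ∩ P).powerset, f (insert p E) else 0 := by
  rw [← Finset.sum_filter]
  split_ifs with h
  · refine Finset.sum_nbij' (fun F => F ∩ P) (fun E => insert p E) ?_ ?_ ?_ ?_ ?_
    · intro F hF
      rw [Finset.mem_filter, Finset.mem_powerset] at hF
      rw [Finset.mem_powerset]
      exact Finset.inter_subset_inter hF.1 (Finset.Subset.refl P)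
    · intro E hE
      rw [Finset.mem_powerset] at hE
      rw [Finset.mem_filter, Finset.mem_powerset]
      refine ⟨?_, ?_⟩
      · intro x hx
        rcases Finset.mem_insert.1 hx with rfl | hx
        · exact h
        · exact (Finset.mem_inter.1 (hE hx)).1
      · ext x
        rw [Finset.mem_sdiff, Finset.mem_insert, Finset.mem_singleton]
        constructor
        · rintro ⟨rfl | hx, h2⟩
          · rfl
          · exact absurd (Finset.mem_inter.1 (hE hx)).2 h2
        · rintro rfl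
          exact ⟨Or.inl rfl, hp⟩
    · intro F hF
      rw [Finset.mem_filter, Finset.mem_powerset] at hF
      have h2 := hF.2
      ext x
      rw [Finset.mem_insert, Finset.mem_inter]
      constructor
      · rintro (rfl | hx)
        · have : x ∈ F \ P := by rw [h2]; exact Finset.mem_singleton_self x
          exact (Finset.mem_sdiff.1 this).1
        · exact hx.1
      · intro hx
        by_cases hxP : x ∈ P
        · exact Or.inr ⟨hx, hxP⟩
        · left
          have : x ∈ F \ P := Finset.mem_sdiff.2 ⟨hx, hxP⟩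
          rw [h2] at this
          exact Finset.mem_singleton.1 this
    · intro E hE
      rw [Finset.mem_powerset] at hE
      ext x
      rw [Finset.mem_inter, Finset.mem_insert]
      constructor
      · rintro ⟨rfl | hx, h2⟩
        · exact absurd h2 hp
        · exact hx
      · intro hx
        exact ⟨Or.inr hx, (Finset.mem_inter.1 (hE hx)).2⟩
    · intro F hF
      rw [Finset.mem_filter, Finset.mem_powerset] at hF
      have h2 := hF.2
      congr 1
      ext x
      rw [Finset.mem_insert, Finset.mem_inter]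
      constructor
      · intro hx
        by_cases hxP : x ∈ P
        · exact Or.inr ⟨hx, hxP⟩
        · left
          have : x ∈ F \ P := Finset.mem_sdiff.2 ⟨hx, hxP⟩
          rw [h2] at this
          exact Finset.mem_singleton.1 this
      · rintro (rfl | hx)
        · have : x ∈ F \ P := by rw [h2]; exact Finset.mem_singleton_self x
          exact (Finset.mem_sdiff.1 this).1
        · exact hx.1
  · refine Finset.sum_eq_zero fun F hF => ?_
    exfalso
    rw [Finset.mem_filter, Finset.mem_powerset] at hF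
    have : p ∈ F \ P := by rw [hF.2]; exact Finset.mem_singleton_self p
    exact h (hF.1 (Finset.mem_sdiff.1 this).1)

/-- The combined weights. -/
noncomputable def CM_C (P0 Q : Finset ℕ) (b : ℝ) (wt : ℕ → ℝ) (c : Finset ℕ → ℝ)
    (cp : ℕ → Finset ℕ → ℝ) (F : Finset ℕ) : ℝ :=
  (if F ⊆ P0 then c F else 0) -
    1 / b * ∑ p ∈ Q, (if F \ P0 = {p} then wt p * cp p (F ∩ P0) else 0)

theorem CM_C_sub (P0 Q : Finset ℕ) (b : ℝ) (wt : ℕ → ℝ) (c : Finset ℕ → ℝ)
    (cp : ℕ → Finset ℕ → ℝ) (F : Finset ℕ) (h : F ⊆ P0) : CM_C P0 Q b wt c cp F = c F := by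
  unfold CM_C
  rw [if_pos h, Finset.sum_eq_zero, mul_zero, sub_zero]
  intro p _
  rw [if_neg]
  rw [Finset.sdiff_eq_empty_iff_subset.2 h]
  exact (Finset.singleton_ne_empty p).symm

theorem CM_C_one (P0 Q : Finset ℕ) (b : ℝ) (wt : ℕ → ℝ) (c : Finset ℕ → ℝ)
    (cp : ℕ → Finset ℕ → ℝ) (F : Finset ℕ) (q : ℕ) (hq : q ∈ Q) (h : F \ P0 = {q}) :
    CM_C P0 Q b wt c cp F = -(1 / b * (wt q * cp q (F ∩ P0))) := by
  unfold CM_C
  have h1 : ¬ F ⊆ P0 := by
    intro h2
    rw [Finset.sdiff_eq_empty_iff_subset.2 h2] at h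
    exact (Finset.singleton_ne_empty q) h.symm
  rw [if_neg h1, Finset.sum_eq_single q, if_pos h, zero_sub]
  · intro p _ hpq
    rw [if_neg]
    rw [h]
    intro h2
    exact hpq (Finset.singleton_injective h2).symm
  · intro h2
    exact absurd hq h2

theorem CM_C_zero (P0 Q : Finset ℕ) (b : ℝ) (wt : ℕ → ℝ) (c : Finset ℕ → ℝ)
    (cp : ℕ → Finset ℕ → ℝ) (F : Finset ℕ) (h1 : ¬ F ⊆ P0) (h : ∀ q ∈ Q, F \ P0 ≠ {q}) :
    CM_C P0 Q b wt c cp F = 0 := by
  unfold CM_C
  rw [if_neg h1, Finset.sum_eq_zero, mul_zero, sub_zero]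
  intro p hp
  rw [if_neg (h p hp)]

theorem CM_split (F P0 : Finset ℕ) (q : ℕ) (h : F \ P0 = {q}) : F = insert q (F ∩ P0) := by
  ext x
  rw [Finset.mem_insert, Finset.mem_inter]
  constructor
  · intro hx
    by_cases hxP : x ∈ P0
    · exact Or.inr ⟨hx, hxP⟩
    · left
      have : x ∈ F \ P0 := Finset.mem_sdiff.2 ⟨hx, hxP⟩
      rw [h] at this
      exact Finset.mem_singleton.1 this
  · rintro (rfl | hx)
    · have : x ∈ F \ P0 := by rw [h]; exact Finset.mem_singleton_self x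
      exact (Finset.mem_sdiff.1 this).1
    · exact hx.1

/-- The sums of the combined weights. -/
theorem CM_sum (P0 Q Γ : Finset ℕ) (b : ℝ) (wt : ℕ → ℝ) (c : Finset ℕ → ℝ)
    (cp : ℕ → Finset ℕ → ℝ) (G : Finset ℕ → ℝ) (hQ : ∀ p ∈ Q, p ∉ P0) :
    ∑ F ∈ Γ.powerset, CM_C P0 Q b wt c cp F * G F = ∑ E ∈ (Γ ∩ P0).powerset, c E * G E
      - 1 / b * ∑ p ∈ Q, (if p ∈ Γ then
          ∑ E ∈ (Γ ∩ P0).powerset, wt p * cp p E * G (insert p E) else 0) := by
  have h1 : ∀ F ∈ Γ.powerset, CM_C P0 Q b wt c cp F * G F =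
      (if F ⊆ P0 then c F * G F else 0) -
        1 / b * ∑ p ∈ Q, (if F \ P0 = {p} then wt p * cp p (F ∩ P0) * G F else 0) := by
    intro F _
    unfold CM_C
    rw [sub_mul, ite_mul, zero_mul, mul_assoc (1 / b), Finset.sum_mul]
    congr 2
    refine Finset.sum_congr rfl fun p _ => ?_
    rw [ite_mul, zero_mul]
  rw [Finset.sum_congr rfl h1, Finset.sum_sub_distrib, CM_s1, ← Finset.mul_sum, Finset.sum_comm]
  congr 2
  refine Finset.sum_congr rfl fun p hp => ?_
  rw [CM_s2 Γ P0 p (hQ p hp) (fun F => wt p * cp p (F ∩ P0) * G F)]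
  split_ifs
  · refine Finset.sum_congr rfl fun E hE => ?_
    have hE' := Finset.mem_powerset.1 hE
    have h2 : insert p E ∩ P0 = E := by
      ext x
      rw [Finset.mem_inter, Finset.mem_insert]
      constructor
      · rintro ⟨rfl | hx, h2⟩
        · exact absurd h2 (hQ x hp)
        · exact hx
      · intro hx
        exact ⟨Or.inr hx, (Finset.mem_inter.1 (hE' hx)).2⟩
    rw [h2]
  · rfl


theorem CM_g (p : ℕ) (E : Finset ℕ) (h : p ∉ E) : g (insert p E) = 1 / ((p : ℝ) - 1) * g E := by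
  unfold g
  rw [Finset.prod_insert h]

theorem CM (hPA : PA_stmt) : CM_stmt := by
  classical
  obtain ⟨hPB, hU, hV, -⟩ := hPA
  intro x w a Y B L U hx hw hxa haY hB hB2 hT
  obtain ⟨hTL, hTU⟩ := hT
  have haYw : (a : ℝ) * w ≤ Y * w := by
    have : (a : ℝ) ≤ Y := by exact_mod_cast haY.le
    exact mul_le_mul_of_nonneg_right this hw.le
  obtain ⟨hun, hdisj, -, -⟩ := hU x (a * w) (Y * w) hxa haYw
  set P0 := PB x (a * w) with hP0
  set P1 := PB x (Y * w) with hP1
  set Q := PB (a * w) (Y * w) with hQ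
  have h01 : P0 ⊆ P1 := by
    rw [hun]
    exact Finset.subset_union_left
  have hQ0 : ∀ p ∈ Q, p ∉ P0 := by
    intro p hp h
    exact (Finset.disjoint_left.1 hdisj h) hp
  have hQ1 : ∀ p ∈ Q, p ∈ P1 := by
    intro p hp
    rw [hun]
    exact Finset.mem_union_right _ hp
  have hQpos : ∀ p ∈ Q, 0 < 1 / ((p : ℝ) - 1) := by
    intro p hp
    exact ((hV (a * w) (Y * w) (hx.trans hxa)).2.2.2 p hp).2.1
  -- the index of the block
  set J : ℕ → ℕ := fun p => ⌊Real.log p / w⌋₊ with hJ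
  have hlogQ : ∀ p ∈ Q, 0 ≤ Real.log p / w := by
    intro p hp
    rw [hQ, hPB] at hp
    have h1 : 0 ≤ (a : ℝ) * w := by positivity
    exact div_nonneg (h1.trans hp.2.1) hw.le
  have hmem : ∀ p t, a ≤ t → t < Y →
      (p ∈ PB (t * w) ((t + 1 : ℕ) * w) ↔ p ∈ Q ∧ J p = t) := by
    intro p t hat htY
    rw [hQ, hPB, hPB]
    have hat' : (a : ℝ) ≤ t := by exact_mod_cast hat
    have htY' : ((t + 1 : ℕ) : ℝ) ≤ Y := by exact_mod_cast htY
    constructor
    · rintro ⟨h1, h2, h3⟩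
      refine ⟨⟨h1, ?_, ?_⟩, ?_⟩
      · exact (mul_le_mul_of_nonneg_right hat' hw.le).trans h2
      · exact h3.trans_le (mul_le_mul_of_nonneg_right htY' hw.le)
      · simp only [hJ]
        rw [Nat.floor_eq_iff (by
          have h4 : 0 ≤ (t : ℝ) * w := by positivity
          exact div_nonneg (h4.trans h2) hw.le)]
        constructor
        · rw [le_div_iff₀ hw]; exact h2
        · rw [div_lt_iff₀ hw]; push_cast at h3; exact h3
    · rintro ⟨⟨h1, h2, h3⟩, h4⟩
      simp only [hJ] at h4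
      rw [Nat.floor_eq_iff (by
        have h5 : 0 ≤ (a : ℝ) * w := by positivity
        exact div_nonneg (h5.trans h2) hw.le)] at h4
      obtain ⟨h5, h6⟩ := h4
      rw [le_div_iff₀ hw] at h5
      rw [div_lt_iff₀ hw] at h6
      refine ⟨h1, h5, ?_⟩
      push_cast
      exact h6
  have hJn : ∀ p ∈ Q, J p ∈ Finset.Ico a Y := by
    intro p hp
    have h0 := hlogQ p hp
    rw [hQ, hPB] at hp
    rw [Finset.mem_Ico]
    simp only [hJ]
    constructor
    · apply Nat.le_floor
      rw [le_div_iff₀ hw]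
      exact hp.2.1
    · rw [Nat.floor_lt h0, div_lt_iff₀ hw]
      exact hp.2.2
  -- the weights
  obtain ⟨c, hc1, hc2, hc3, hc4⟩ := hTL B hB2
  have hup : ∀ t : ℕ, ∃ cc : Finset ℕ → ℝ, t < Y → ((∀ E, |cc E| ≤ 1) ∧
      (∀ E, cc E ≠ 0 → E ⊆ PB x (a * w) ∧ ∑ p ∈ E, Real.log p ≤ ((B - t - 1 : ℕ) : ℝ) * w) ∧
      (∀ Γ ⊆ PB x (a * w), (if Γ = ∅ then 1 else 0) ≤ ∑ E ∈ Γ.powerset, cc E) ∧
      ∑ E ∈ (PB x (a * w)).powerset, cc E * g E ≤
        V (PB x (a * w)) * (1 + (dig U (B - t - 1) : ℝ) / 2 ^ 40)) := by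
    intro t
    by_cases ht : t < Y
    · obtain ⟨cc, hcc⟩ := hTU (B - t - 1) (by omega) (by omega)
      exact ⟨cc, fun _ => hcc⟩
    · exact ⟨fun _ => 0, fun h => absurd h ht⟩
  choose cj hcj using hup
  set wt : ℕ → ℝ := fun _ => 1 with hwt
  set cp : ℕ → Finset ℕ → ℝ := fun p => cj (J p) with hcp
  refine ⟨CM_C P0 Q 2 wt c cp, ?_, ?_, ?_, ?_⟩
  · intro F
    by_cases h1 : F ⊆ P0
    · rw [CM_C_sub _ _ _ _ _ _ _ h1]
      exact hc1 F
    · by_cases h2 : ∃ q ∈ Q, F \ P0 = {q}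
      · obtain ⟨q, hq, h3⟩ := h2
        rw [CM_C_one _ _ _ _ _ _ _ q hq h3, abs_neg, abs_mul, abs_mul]
        have h5 : |cp q (F ∩ P0)| ≤ 1 := (hcj (J q) (Finset.mem_Ico.1 (hJn q hq)).2).1 _
        have h7 : |wt q| = 1 := by rw [hwt]; simp
        rw [h7, one_mul]
        have h8 : |(1 / 2 : ℝ)| = 1 / 2 := abs_of_pos (by norm_num)
        rw [h8]
        linarith [abs_nonneg (cp q (F ∩ P0))]
      · rw [CM_C_zero _ _ _ _ _ _ _ h1]
        · simp
        · intro q hq h3
          exact h2 ⟨q, hq, h3⟩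
  · intro F hF
    by_cases h1 : F ⊆ P0
    · rw [CM_C_sub _ _ _ _ _ _ _ h1] at hF
      have := hc2 F hF
      exact ⟨h1.trans h01, this.2⟩
    · by_cases h2 : ∃ q ∈ Q, F \ P0 = {q}
      · obtain ⟨q, hq, h3⟩ := h2
        rw [CM_C_one _ _ _ _ _ _ _ q hq h3] at hF
        have h4 : cp q (F ∩ P0) ≠ 0 := by
          intro h5
          rw [h5] at hF
          simp at hF
        have hJq := Finset.mem_Ico.1 (hJn q hq)
        have h5 := (hcj (J q) hJq.2).2.1 _ h4
        have h6 := CM_split F P0 q h3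
        have hq0 : q ∉ F ∩ P0 := fun h7 => hQ0 q hq (Finset.mem_inter.1 h7).2
        refine ⟨?_, ?_⟩
        · rw [h6]
          intro y hy
          rcases Finset.mem_insert.1 hy with rfl | hy
          · exact hQ1 y hq
          · exact h01 (Finset.mem_inter.1 hy).2
        · rw [h6, Finset.sum_insert hq0]
          have h7 : Real.log q < ((J q + 1 : ℕ) : ℝ) * w := by
            have h8 := (hmem q (J q) hJq.1 hJq.2).2 ⟨hq, rfl⟩
            rw [hPB] at h8
            exact h8.2.2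
          have h9 : ((B - J q - 1 : ℕ) : ℝ) = (B : ℝ) - J q - 1 := by
            have h10 : J q + 1 ≤ B := by omega
            have h11 : B - J q - 1 = B - (J q + 1) := by omega
            rw [h11, Nat.cast_sub h10]
            push_cast
            ring
          rw [h9] at h5
          push_cast at h7
          have h12 := h5.2
          nlinarith
      · exfalso
        apply hF
        exact CM_C_zero _ _ _ _ _ _ _ h1 (fun q hq h3 => h2 ⟨q, hq, h3⟩)
  · intro Γ hΓ
    have h1 := CM_sum P0 Q Γ 2 wt c cp (fun _ => 1) hQ0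
    simp only [mul_one] at h1
    rw [h1]
    have h2 := hc3 (Γ ∩ P0) Finset.inter_subset_right
    have h3 : ∀ p ∈ Q, (if p ∈ Γ then (if Γ ∩ P0 = ∅ then (1 : ℝ) else 0) else 0) ≤
        (if p ∈ Γ then ∑ E ∈ (Γ ∩ P0).powerset, wt p * cp p E else 0) := by
      intro p hp
      have hJp := Finset.mem_Ico.1 (hJn p hp)
      by_cases h4 : p ∈ Γ
      · rw [if_pos h4, if_pos h4, ← Finset.mul_sum]
        have h6 := (hcj (J p) hJp.2).2.2.1 (Γ ∩ P0) Finset.inter_subset_right
        have h8 : wt p = 1 := rfl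
        rw [h8, one_mul]
        exact h6
      · rw [if_neg h4, if_neg h4]
    have h4 := Finset.sum_le_sum h3
    have h5 : 1 / (2 : ℝ) * ∑ p ∈ Q, (if p ∈ Γ then (if Γ ∩ P0 = ∅ then (1 : ℝ) else 0) else 0) ≤
        1 / 2 * ∑ p ∈ Q, (if p ∈ Γ then ∑ E ∈ (Γ ∩ P0).powerset, wt p * cp p E else 0) :=
      mul_le_mul_of_nonneg_left h4 (by norm_num)
    by_cases h6 : Γ ∩ P0 = ∅
    · rw [if_pos h6] at h2 ⊢
      simp only [if_pos h6] at h5
      have h7 : ∑ p ∈ Q, (if p ∈ Γ then (1 : ℝ) else 0) = (Γ.card : ℝ) := by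
        rw [← Finset.sum_filter]
        have h8 : Q.filter (fun p => p ∈ Γ) = Γ := by
          ext p
          rw [Finset.mem_filter]
          constructor
          · exact fun h => h.2
          · intro h
            refine ⟨?_, h⟩
            have h9 : p ∈ P1 := hΓ h
            rw [hun, Finset.mem_union] at h9
            rcases h9 with h9 | h9
            · have : p ∈ Γ ∩ P0 := Finset.mem_inter.2 ⟨h, h9⟩
              rw [h6] at this
              exact absurd this (Finset.notMem_empty p)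
            · exact h9
        rw [h8, Finset.sum_const, nsmul_eq_mul, mul_one]
      rw [h7] at h5
      linarith
    · rw [if_neg h6] at h2 ⊢
      simp only [if_neg h6, ite_self, Finset.sum_const_zero, mul_zero] at h5
      linarith
  · rw [CM_sum P0 Q P1 2 wt c cp g hQ0]
    have hI : P1 ∩ P0 = P0 := Finset.inter_eq_right.2 h01
    rw [hI]
    have hVp : 0 < V P0 := (hV x (a * w) hx).1
    -- upper bound for the second sum
    have h1 : ∑ p ∈ Q, (if p ∈ P1 then ∑ E ∈ P0.powerset, wt p * cp p E * g (insert p E) else 0)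
        ≤ ∑ p ∈ Q, V P0 * ((1 + (dig U (B - J p - 1) : ℝ) / 2 ^ 40) * (1 / ((p : ℝ) - 1))) := by
      refine Finset.sum_le_sum fun p hp => ?_
      have hJp := Finset.mem_Ico.1 (hJn p hp)
      rw [if_pos (hQ1 p hp)]
      have h2 : ∑ E ∈ P0.powerset, wt p * cp p E * g (insert p E) =
          (1 / ((p : ℝ) - 1)) * ∑ E ∈ P0.powerset, cp p E * g E := by
        rw [Finset.mul_sum]
        refine Finset.sum_congr rfl fun E hE => ?_
        rw [CM_g p E (fun h => hQ0 p hp (Finset.mem_powerset.1 hE h))]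
        have h8 : wt p = 1 := rfl
        rw [h8]
        ring
      rw [h2]
      have h3 := (hcj (J p) hJp.2).2.2.2
      have h4 : 0 ≤ 1 / ((p : ℝ) - 1) := (hQpos p hp).le
      calc (1 / ((p : ℝ) - 1)) * ∑ E ∈ P0.powerset, cp p E * g E
          ≤ (1 / ((p : ℝ) - 1)) * (V P0 * (1 + (dig U (B - J p - 1) : ℝ) / 2 ^ 40)) :=
            mul_le_mul_of_nonneg_left h3 h4
        _ = V P0 * ((1 + (dig U (B - J p - 1) : ℝ) / 2 ^ 40) * (1 / ((p : ℝ) - 1))) := by ring
    have h2 : ∑ p ∈ Q, V P0 * ((1 + (dig U (B - J p - 1) : ℝ) / 2 ^ 40) * (1 / ((p : ℝ) - 1)))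
        = V P0 * ∑ t ∈ Finset.Ico a Y,
          (1 + (dig U (B - t - 1) : ℝ) / 2 ^ 40) * sig (t * w) ((t + 1 : ℕ) * w) := by
      rw [← Finset.mul_sum]
      congr 1
      rw [← Finset.sum_fiberwise_of_maps_to (s := Q) (t := Finset.Ico a Y) (g := J)
        (fun p hp => hJn p hp)]
      refine Finset.sum_congr rfl fun t ht => ?_
      rw [Finset.mem_Ico] at ht
      unfold sig
      rw [Finset.mul_sum]
      have h3 : Q.filter (fun p => J p = t) = PB (t * w) ((t + 1 : ℕ) * w) := by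
        ext p
        rw [Finset.mem_filter, hmem p t ht.1 ht.2]
      rw [h3]
      refine Finset.sum_congr rfl fun p hp => ?_
      have h4 := ((hmem p t ht.1 ht.2).1 hp).2
      rw [h4]
    rw [h2] at h1
    have h3 : 1 / (2 : ℝ) * ∑ p ∈ Q, (if p ∈ P1 then
        ∑ E ∈ P0.powerset, wt p * cp p E * g (insert p E) else 0) ≤ 1 / 2 * (V P0 *
          ∑ t ∈ Finset.Ico a Y,
            (1 + (dig U (B - t - 1) : ℝ) / 2 ^ 40) * sig (t * w) ((t + 1 : ℕ) * w)) :=
      mul_le_mul_of_nonneg_left h1 (by norm_num)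
    have h4 : V P0 * (1 - (dig L B : ℝ) / 2 ^ 40 - 1 / 2 * ∑ t ∈ Finset.Ico a Y,
        (1 + (dig U (B - t - 1) : ℝ) / 2 ^ 40) * sig (t * w) ((t + 1 : ℕ) * w)) =
        V P0 * (1 - (dig L B : ℝ) / 2 ^ 40) - 1 / 2 * (V P0 * ∑ t ∈ Finset.Ico a Y,
        (1 + (dig U (B - t - 1) : ℝ) / 2 ^ 40) * sig (t * w) ((t + 1 : ℕ) * w)) := by ring
    rw [h4]
    linarith

end Pool.Agent.CHS
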